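import Pool.Agent.Results.MP_8e2100_an.SubMeanFails

/-!
# The Kobayashi distance: triangle inequality, affine maps, finiteness
-/

set_option autoImplicit false

namespace Pool.Agent.Y737.KB

open MeasureTheory Set Metric Filter
open scoped ENNReal NNReal Topology
open Pool.Agent.Results.MP_8e2100_an.SubMeanFails

section tri

variable {n : ℕ} {Ω : Set (Cn n)}

lemma metric_smul (p v : Cn n) (c : ℝ≥0) (hc : c ≠ 0) :
    kobMetric Ω p ((c : ℝ) • v) ≤ c * kobMetric Ω p v := by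
  unfold kobMetric
  rw [ENNReal.mul_iInf_of_ne (by exact_mod_cast hc) ENNReal.coe_ne_top]
  refine le_iInf fun a => ?_
  rw [ENNReal.mul_iInf_of_ne (by exact_mod_cast hc) ENNReal.coe_ne_top]
  refine le_iInf fun ⟨φ, h1, h2, h3, h4⟩ => ?_
  rw [← ENNReal.coe_mul]
  refine iInf_le_of_le (c * a) (iInf_le_of_le ⟨φ, h1, h2, h3, ?_⟩ le_rfl)
  rw [← h4]
  ext i
  simp only [Pi.smul_apply, smul_eq_mul, Complex.real_smul]
  push_cast
  ring

/-- the triangle inequality -/
theorem dist_tri {z w u : Cn n} : kobDist Ω z u ≤ kobDist Ω z w + kobDist Ω w u := by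
  unfold kobDist
  refine ENNReal.le_iInf₂_add_iInf₂ fun γ₁ h₁ γ₂ h₂ => ?_
  obtain ⟨S₁, hS₁⟩ := h₁.smooth
  obtain ⟨S₂, hS₂⟩ := h₂.smooth
  set γ : ℝ → Cn n := fun t => if t ≤ 1 / 2 then γ₁ (2 * t) else γ₂ (2 * t - 1) with hγ
  have e1 : ∀ t, t ≤ 1 / 2 → γ t = γ₁ (2 * t) := fun t ht => if_pos ht
  have e2 : ∀ t, 1 / 2 < t → γ t = γ₂ (2 * t - 1) := fun t ht => if_neg (not_le.2 ht)
  have e2' : ∀ t, 1 / 2 ≤ t → γ t = γ₂ (2 * t - 1) := by
    intro t ht
    rcases ht.eq_or_lt with h | h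
    · rw [e1 t h.symm.le, ← h, show (2 : ℝ) * (1 / 2) = 1 by norm_num,
        show (1 : ℝ) - 1 = 0 by norm_num, h₁.right, h₂.left]
    · exact e2 t h
  have n1 : ∀ t, t < 1 / 2 → γ =ᶠ[𝓝 t] fun s => γ₁ (2 * s) := by
    intro t ht
    filter_upwards [gt_mem_nhds ht] with s hs
    exact e1 s hs.le
  have n2 : ∀ t, 1 / 2 < t → γ =ᶠ[𝓝 t] fun s => γ₂ (2 * s - 1) := by
    intro t ht
    filter_upwards [lt_mem_nhds ht] with s hs
    exact e2 s hs
  have hcurve : IsCurve Ω z u γ := by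
    refine ⟨?_, ?_, ?_, ?_, ?_⟩
    · have hI : Icc (0 : ℝ) 1 = Icc 0 (1 / 2) ∪ Icc (1 / 2) 1 :=
        (Icc_union_Icc_eq_Icc (by norm_num) (by norm_num)).symm
      rw [hI]
      refine ContinuousOn.union_of_isClosed ?_ ?_ isClosed_Icc isClosed_Icc
      · refine ContinuousOn.congr (f := fun t => γ₁ (2 * t)) ?_ (fun t ht => e1 t ht.2)
        refine h₁.cont.comp (by fun_prop) fun t ht => ?_
        exact ⟨by linarith [ht.1], by linarith [ht.2]⟩
      · refine ContinuousOn.congr (f := fun t => γ₂ (2 * t - 1)) ?_ (fun t ht => e2' t ht.1)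
        refine h₂.cont.comp (by fun_prop) fun t ht => ?_
        exact ⟨by linarith [ht.1], by linarith [ht.2]⟩
    · intro t ht
      rcases le_or_gt t (1 / 2) with h | h
      · rw [e1 t h]
        exact h₁.maps ⟨by linarith [ht.1], by linarith⟩
      · rw [e2 t h]
        exact h₂.maps ⟨by linarith, by linarith [ht.2]⟩
    · rw [e1 0 (by norm_num), mul_zero, h₁.left]
    · rw [e2 1 (by norm_num), show (2 : ℝ) * 1 - 1 = 1 by norm_num, h₂.right]
    · refine ⟨S₁.image (fun s => s / 2) ∪ S₂.image (fun s => (s + 1) / 2) ∪ {1 / 2},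
        fun t ht hn => ?_⟩
      simp only [Finset.mem_union, Finset.mem_image, Finset.mem_singleton, not_or] at hn
      obtain ⟨⟨hn1, hn2⟩, hn3⟩ := hn
      rcases lt_or_gt_of_ne hn3 with h | h
      · refine ContDiffAt.congr_of_eventuallyEq ?_ (n1 t h)
        have h3 : ContDiffAt ℝ 1 γ₁ (2 * t) := hS₁ _ ⟨by linarith [ht.1], by linarith⟩
          (fun hc => hn1 ⟨2 * t, hc, by ring⟩)
        exact h3.comp t (by fun_prop)
      · refine ContDiffAt.congr_of_eventuallyEq ?_ (n2 t h)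
        have h3 : ContDiffAt ℝ 1 γ₂ (2 * t - 1) := hS₂ _ ⟨by linarith, by linarith [ht.2]⟩
          (fun hc => hn2 ⟨2 * t - 1, hc, by ring⟩)
        exact h3.comp t (by fun_prop)
  refine iInf_le_of_le γ (iInf_le_of_le hcurve ?_)
  have hI : Icc (0 : ℝ) 1 ⊆ (Ioo 0 (1 / 2) ∪ Ioo (1 / 2) 1) ∪ {0, 1 / 2, 1} := by
    intro t ht
    simp only [mem_union, mem_insert_iff, mem_singleton_iff, mem_Ioo]
    by_cases h0 : t = 0
    · exact Or.inr (Or.inl h0)
    by_cases h1 : t = 1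
    · exact Or.inr (Or.inr (Or.inr h1))
    by_cases h2 : t = 1 / 2
    · exact Or.inr (Or.inr (Or.inl h2))
    rcases lt_or_gt_of_ne h2 with h | h
    · exact Or.inl (Or.inl ⟨lt_of_le_of_ne ht.1 (Ne.symm h0), h⟩)
    · exact Or.inl (Or.inr ⟨h, lt_of_le_of_ne ht.2 h1⟩)
  have hz : ∫⁻ t in ({0, 1 / 2, 1} : Set ℝ), kobMetric Ω (γ t) (deriv γ t) = 0 := by
    have : volume ({0, 1 / 2, 1} : Set ℝ) = 0 := (Set.toFinite _).measure_zero _
    exact setLIntegral_measure_zero _ _ this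
  have c1 : ∫⁻ t in Ioo (0 : ℝ) (1 / 2), kobMetric Ω (γ t) (deriv γ t) ≤ kobLength Ω γ₁ := by
    have h5 := lintegral_image_eq_lintegral_abs_deriv_mul (s := Ioo (0 : ℝ) (1 / 2))
      measurableSet_Ioo (f := fun t => 2 * t) (f' := fun _ => 2)
      (fun t _ => by simpa using ((hasDerivAt_id t).const_mul (2 : ℝ)).hasDerivWithinAt)
      (fun a _ b _ hab => by simpa using hab)
      (fun s => kobMetric Ω (γ₁ s) (deriv γ₁ s))
    calc ∫⁻ t in Ioo (0 : ℝ) (1 / 2), kobMetric Ω (γ t) (deriv γ t)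
        ≤ ∫⁻ t in Ioo (0 : ℝ) (1 / 2), ENNReal.ofReal |2| *
            kobMetric Ω (γ₁ (2 * t)) (deriv γ₁ (2 * t)) := by
          refine setLIntegral_mono' measurableSet_Ioo fun t ht => ?_
          rw [e1 t ht.2.le, (n1 t ht.2).deriv_eq, deriv_comp_mul_left]
          have := metric_smul (Ω := Ω) (γ₁ (2 * t)) (deriv γ₁ (2 * t)) 2 two_ne_zero
          simpa using this
      _ = ∫⁻ s in (fun t : ℝ => 2 * t) '' Ioo 0 (1 / 2), kobMetric Ω (γ₁ s) (deriv γ₁ s) := h5.symm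
      _ ≤ _ := by
          refine lintegral_mono_set ?_
          rintro _ ⟨t, ht, rfl⟩
          exact ⟨by linarith [ht.1], by linarith [ht.2]⟩
  have c2 : ∫⁻ t in Ioo (1 / 2 : ℝ) 1, kobMetric Ω (γ t) (deriv γ t) ≤ kobLength Ω γ₂ := by
    have h5 := lintegral_image_eq_lintegral_abs_deriv_mul (s := Ioo (1 / 2 : ℝ) 1)
      measurableSet_Ioo (f := fun t => 2 * t - 1) (f' := fun _ => 2)
      (fun t _ => by simpa using (((hasDerivAt_id t).const_mul (2 : ℝ)).sub_const 1).hasDerivWithinAt)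
      (fun a _ b _ hab => by simpa using hab)
      (fun s => kobMetric Ω (γ₂ s) (deriv γ₂ s))
    calc ∫⁻ t in Ioo (1 / 2 : ℝ) 1, kobMetric Ω (γ t) (deriv γ t)
        ≤ ∫⁻ t in Ioo (1 / 2 : ℝ) 1, ENNReal.ofReal |2| *
            kobMetric Ω (γ₂ (2 * t - 1)) (deriv γ₂ (2 * t - 1)) := by
          refine setLIntegral_mono' measurableSet_Ioo fun t ht => ?_
          have h6 : deriv (fun s => γ₂ (2 * s - 1)) t = (2 : ℝ) • deriv γ₂ (2 * t - 1) := by
            have := deriv_comp_mul_left (2 : ℝ) (fun s => γ₂ (s - 1)) t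
            rw [this, deriv_comp_sub_const]
          rw [e2 t ht.1, (n2 t ht.1).deriv_eq, h6]
          have := metric_smul (Ω := Ω) (γ₂ (2 * t - 1)) (deriv γ₂ (2 * t - 1)) 2 two_ne_zero
          simpa using this
      _ = ∫⁻ s in (fun t : ℝ => 2 * t - 1) '' Ioo (1 / 2) 1, kobMetric Ω (γ₂ s) (deriv γ₂ s) :=
          h5.symm
      _ ≤ _ := by
          refine lintegral_mono_set ?_
          rintro _ ⟨t, ht, rfl⟩
          exact ⟨by linarith [ht.1], by linarith [ht.2]⟩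
  calc kobLength Ω γ ≤ ∫⁻ t in (Ioo 0 (1 / 2) ∪ Ioo (1 / 2) 1) ∪ {0, 1 / 2, 1},
        kobMetric Ω (γ t) (deriv γ t) := lintegral_mono_set hI
    _ ≤ _ := (lintegral_union_le _ _ _)
    _ ≤ ∫⁻ t in Ioo (0 : ℝ) (1 / 2) ∪ Ioo (1 / 2) 1, kobMetric Ω (γ t) (deriv γ t) := by
        rw [hz, add_zero]
    _ ≤ _ := lintegral_union_le _ _ _
    _ ≤ _ := add_le_add c1 c2

end tri

section aff

variable {n n' : ℕ} {Ω : Set (Cn n)} {Ω' : Set (Cn n')}

/-- affine maps do not increase the Kobayashi distance -/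
theorem dist_aff (A : Cn n →L[ℂ] Cn n') (b : Cn n') (hF : MapsTo (fun z => A z + b) Ω Ω')
    {z w : Cn n} : kobDist Ω' (A z + b) (A w + b) ≤ kobDist Ω z w := by
  have hmet : ∀ p v : Cn n, kobMetric Ω' (A p + b) (A v) ≤ kobMetric Ω p v := by
    intro p v
    refine le_iInf fun a => le_iInf fun ⟨φ, h1, h2, h3, h4⟩ => ?_
    refine kobMetric_le (φ := fun y => A (φ y) + b) ?_ (fun y hy => hF (h2 hy)) (by rw [h3]) ?_
    · exact (A.differentiable.comp_differentiableOn h1).add_const b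
    · have hd : DifferentiableAt ℂ φ 0 := h1.differentiableAt (ball_mem_nhds _ one_pos)
      have h5 : HasDerivAt (fun y => A (φ y) + b) (A (deriv φ 0)) 0 :=
        (A.hasFDerivAt.comp_hasDerivAt 0 hd.hasDerivAt).add_const b
      rw [h5.deriv, ← h4, map_smul]
  refine le_iInf fun γ => le_iInf fun hγ => ?_
  obtain ⟨S, hS⟩ := hγ.smooth
  have hA : ContDiff ℝ 1 (fun z : Cn n => A z + b) :=
    ((A.restrictScalars ℝ).contDiff).add contDiff_const
  have hcurve : IsCurve Ω' (A z + b) (A w + b) (fun t => A (γ t) + b) := by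
    refine ⟨hA.continuous.comp_continuousOn hγ.cont, fun t ht => hF (hγ.maps ht), ?_, ?_, S,
      fun t ht htS => hA.contDiffAt.comp t (hS t ht htS)⟩
    · rw [hγ.left]
    · rw [hγ.right]
  refine iInf_le_of_le _ (iInf_le_of_le hcurve ?_)
  unfold kobLength
  refine setLIntegral_mono_ae' measurableSet_Icc ?_
  have hnull : ∀ᵐ t : ℝ, t ∉ (S : Set ℝ) := S.countable_toSet.ae_notMem volume
  filter_upwards [hnull] with t ht htI
  have hd : DifferentiableAt ℝ γ t := (hS t htI ht).differentiableAt one_ne_zero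
  have h5 : HasDerivAt (fun t => A (γ t) + b) (A (deriv γ t)) t :=
    ((A.restrictScalars ℝ).hasFDerivAt.comp_hasDerivAt t hd.hasDerivAt).add_const b
  rw [h5.deriv]
  exact hmet _ _

end aff

/-- the distance is finite on a connected open set -/
theorem dist_fin {n : ℕ} {Ω : Set (Cn n)} (ho : IsOpen Ω) (hc : IsPreconnected Ω) {z w : Cn n}
    (hz : z ∈ Ω) (hw : w ∈ Ω) : kobDist Ω z w ≠ ⊤ := by
  refine hc.induction₂' (fun z w => kobDist Ω z w ≠ ⊤) ?_ ?_ hz hw
  · intro x hx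
    obtain ⟨ε, hε, hball⟩ := Metric.isOpen_iff.1 ho x hx
    have h1 : ball x (ε / 4) ∈ 𝓝[Ω] x := mem_nhdsWithin_of_mem_nhds (ball_mem_nhds x (by positivity))
    filter_upwards [h1] with y hy
    have hxy : ‖y - x‖ < ε / 4 := by rwa [mem_ball, dist_eq_norm] at hy
    constructor
    · refine ne_top_of_le_ne_top ENNReal.ofReal_ne_top
        (dist_local (b := y) (q := x) (ε := ε * (3 / 4)) (by positivity) ?_ ?_)
      · refine subset_trans (fun u hu => ?_) hball
        rw [mem_ball] at hu ⊢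
        have h2 : dist y x < ε / 4 := hy
        linarith [dist_triangle u y x]
      · rw [norm_sub_rev]
        linarith
    · exact ne_top_of_le_ne_top ENNReal.ofReal_ne_top (dist_local hε hball (by linarith))
  · intro x y u _ _ _ h1 h2
    exact ne_top_of_le_ne_top (ENNReal.add_ne_top.2 ⟨h1, h2⟩) dist_tri

end Pool.Agent.Y737.KB
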