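import Pool.Agent.Y737.KB.Dist

/-!
# One domain for all exponents: the domain, completeness
-/

set_option autoImplicit false

namespace Pool.Agent.Y737.KB

open MeasureTheory Set Metric Filter
open scoped ENNReal NNReal Topology
open Pool.Agent.Results.MP_8e2100_an.SubMeanFails

/-- The domain `{0 < |z_0| < 1, |z_j| < 2 ^ (m ^ 2) |z_0| ^ m for all j ≥ 1 and all m ≥ 0}`. -/
def OmI (k : ℕ) : Set (Cn (k + 1)) :=
  {z | 0 < ‖z 0‖ ∧ ‖z 0‖ < 1 ∧ ∀ (j : Fin k) (m : ℕ), ‖z j.succ‖ < 2 ^ (m ^ 2) * ‖z 0‖ ^ m}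

variable {k : ℕ}

lemma big {ε : ℝ} (hε : 0 < ε) : ∃ q : ℕ, ∀ m : ℕ, q ≤ m → ∀ t : ℝ, ε ≤ t →
    1 ≤ 2 ^ (m ^ 2) * t ^ m := by
  obtain ⟨q, hq⟩ := exists_pow_lt_of_lt_one hε (by norm_num : (1 / 2 : ℝ) < 1)
  refine ⟨q, fun m hm t ht => ?_⟩
  have h1 : (1 / 2 : ℝ) ^ m ≤ (1 / 2) ^ q := pow_le_pow_of_le_one (by norm_num) (by norm_num) hm
  have h2 : (1 / 2 : ℝ) ^ m ≤ t := by linarith
  calc (1 : ℝ) = 2 ^ (m ^ 2) * ((1 / 2 : ℝ) ^ m) ^ m := by
        rw [← pow_mul, ← sq, ← mul_pow]; norm_num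
    _ ≤ 2 ^ (m ^ 2) * t ^ m := by gcongr

lemma isOpen_OmI : IsOpen (OmI k) := by
  rw [isOpen_iff_mem_nhds]
  intro z hz
  obtain ⟨q, hq⟩ := big (half_pos hz.1)
  have hc : ∀ i : Fin (k + 1), Continuous fun y : Cn (k + 1) => ‖y i‖ := fun i =>
    (continuous_apply i).norm
  have h1 : ∀ᶠ y : Cn (k + 1) in 𝓝 z, ‖z 0‖ / 2 < ‖y 0‖ :=
    (hc 0).continuousAt.eventually (lt_mem_nhds (by linarith [hz.1]))
  have h2 : ∀ᶠ y : Cn (k + 1) in 𝓝 z, ‖y 0‖ < 1 :=
    (hc 0).continuousAt.eventually (gt_mem_nhds hz.2.1)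
  have h3 : ∀ᶠ y : Cn (k + 1) in 𝓝 z, ∀ j : Fin k, ∀ m ∈ Finset.range (q + 1),
      ‖y j.succ‖ < 2 ^ (m ^ 2) * ‖y 0‖ ^ m := by
    rw [eventually_all]
    intro j
    rw [Filter.eventually_all_finset]
    intro m _
    exact (isOpen_lt (hc j.succ) (((hc 0).pow m).const_mul _)).mem_nhds (hz.2.2 j m)
  filter_upwards [h1, h2, h3] with y hy1 hy2 hy3
  refine ⟨by linarith [hz.1], hy2, fun j m => ?_⟩
  by_cases hm : m < q + 1
  · exact hy3 j m (Finset.mem_range.2 hm)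
  · have h4 := hy3 j 0 (Finset.mem_range.2 (by omega))
    have h5 := hq m (by omega) ‖y 0‖ hy1.le
    simp only [ne_eq, OfNat.ofNat_ne_zero, not_false_eq_true, zero_pow, pow_zero, mul_one] at h4
    linarith

lemma OmI_sub : OmI k ⊆ Om k 0 := by
  intro z hz
  refine ⟨hz.1, hz.2.1, fun j => ?_⟩
  have := hz.2.2 j 0
  simpa using this

lemma isBounded_OmI : Bornology.IsBounded (OmI k) := isBounded_Om.subset OmI_sub

lemma ctr_memI {x : ℝ} (hx0 : 0 < x) (hx1 : x < 1) : ctr k x ∈ OmI k := by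
  refine ⟨?_, ?_, fun j m => ?_⟩
  · simp [ctr, hx0.ne']
  · simp [ctr, abs_of_pos hx0, hx1]
  · have h1 : ctr k x j.succ = 0 := rfl
    have h2 : ctr k x 0 = (x : ℂ) := rfl
    rw [h1, h2, norm_zero, Complex.norm_real, Real.norm_eq_abs, abs_of_pos hx0]
    positivity

/-- the points with vanishing last coordinates -/
def cz (k : ℕ) (a : ℂ) : Cn (k + 1) := Fin.cons a (fun _ => 0)

lemma isPreconnected_OmI : IsPreconnected (OmI k) := by
  set A : Set (Cn (k + 1)) := (fun g : ℂ => cz k (Complex.exp g)) '' {g | g.re < 0} with hA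
  have hcz : Continuous (fun g : ℂ => cz k (Complex.exp g)) := by
    refine continuous_pi fun i => ?_
    refine Fin.cases ?_ (fun j => ?_) i
    · exact Complex.continuous_exp
    · exact continuous_const
  have hAp : IsPreconnected A :=
    ((convex_halfSpace_re_lt 0).isPreconnected).image _ hcz.continuousOn
  have hmemA : ∀ a : ℂ, 0 < ‖a‖ → ‖a‖ < 1 → cz k a ∈ A := by
    intro a h0 h1
    have ha : a ≠ 0 := norm_pos_iff.1 h0
    refine ⟨Complex.log a, ?_, ?_⟩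
    · change (Complex.log a).re < 0
      rw [Complex.log_re]
      exact Real.log_neg h0 h1
    · change cz k (Complex.exp (Complex.log a)) = _
      rw [Complex.exp_log ha]
  have hAO : A ⊆ OmI k := by
    rintro _ ⟨g, hg, rfl⟩
    refine ⟨?_, ?_, fun j m => ?_⟩
    · change 0 < ‖Complex.exp g‖
      exact norm_pos_iff.2 (Complex.exp_ne_zero g)
    · change ‖Complex.exp g‖ < 1
      rw [Complex.norm_exp]
      exact Real.exp_lt_one_iff.2 hg
    · change ‖(0 : ℂ)‖ < 2 ^ (m ^ 2) * ‖Complex.exp g‖ ^ m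
      have : 0 < ‖Complex.exp g‖ := norm_pos_iff.2 (Complex.exp_ne_zero g)
      rw [norm_zero]
      positivity
  refine isPreconnected_of_forall (cz k (1 / 2)) fun y hy => ?_
  set T : Set (Cn (k + 1)) :=
    (fun s : ℝ => (Fin.cons (y 0) (fun j => (s : ℂ) * y j.succ) : Cn (k + 1))) '' Icc 0 1 with hT
  have hTc : Continuous (fun s : ℝ => (Fin.cons (y 0) (fun j => (s : ℂ) * y j.succ) : Cn (k + 1))) := by
    refine continuous_pi fun i => ?_
    refine Fin.cases ?_ (fun j => ?_) i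
    · exact continuous_const
    · exact Complex.continuous_ofReal.mul continuous_const
  have hTp : IsPreconnected T := isPreconnected_Icc.image _ hTc.continuousOn
  have hTO : T ⊆ OmI k := by
    rintro _ ⟨s, hs, rfl⟩
    refine ⟨hy.1, hy.2.1, fun j m => ?_⟩
    change ‖(s : ℂ) * y j.succ‖ < 2 ^ (m ^ 2) * ‖y 0‖ ^ m
    rw [norm_mul, Complex.norm_real, Real.norm_eq_abs, abs_of_nonneg hs.1]
    refine lt_of_le_of_lt ?_ (hy.2.2 j m)
    exact mul_le_of_le_one_left (norm_nonneg _) hs.2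
  have hy0 : cz k (y 0) ∈ T := ⟨0, ⟨le_rfl, zero_le_one⟩, by
    funext i
    refine Fin.cases rfl (fun j => ?_) i
    change ((0 : ℝ) : ℂ) * y j.succ = 0
    simp⟩
  have hy1 : y ∈ T := ⟨1, ⟨zero_le_one, le_rfl⟩, by
    funext i
    refine Fin.cases rfl (fun j => ?_) i
    change ((1 : ℝ) : ℂ) * y j.succ = y j.succ
    simp⟩
  exact ⟨T ∪ A, union_subset hTO hAO, Or.inr (hmemA _ (by norm_num) (by norm_num)), Or.inl hy1,
    hTp.union (cz k (y 0)) hy0 (hmemA _ hy.1 hy.2.1) hAp⟩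

/-- the rescaling -/
noncomputable def Fm (k m : ℕ) : Cn (k + 1) →L[ℂ] Cn (k + 1) :=
  ContinuousLinearMap.pi fun i =>
    ((Fin.cons 1 (fun _ => (2 ^ (m ^ 2))⁻¹) : Fin (k + 1) → ℂ) i) •
      (ContinuousLinearMap.proj i : Cn (k + 1) →L[ℂ] ℂ)

lemma Fm_zero (m : ℕ) (z : Cn (k + 1)) : Fm k m z 0 = z 0 := by
  simp [Fm]

lemma Fm_succ (m : ℕ) (z : Cn (k + 1)) (j : Fin k) :
    Fm k m z j.succ = (2 ^ (m ^ 2))⁻¹ * z j.succ := by
  simp [Fm]

lemma Fm_mem {m : ℕ} {z : Cn (k + 1)} : Fm k m z ∈ Om k m ↔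
    0 < ‖z 0‖ ∧ ‖z 0‖ < 1 ∧ ∀ j : Fin k, ‖z j.succ‖ < 2 ^ (m ^ 2) * ‖z 0‖ ^ m := by
  unfold Om
  rw [Set.mem_ofPred_eq, Fm_zero]
  refine and_congr Iff.rfl (and_congr Iff.rfl (forall_congr' fun j => ?_))
  rw [Fm_succ, norm_mul, norm_inv, norm_pow, Complex.norm_ofNat, inv_mul_lt_iff₀ (by positivity)]

lemma dist_Fm (m : ℕ) {z w : Cn (k + 1)} :
    kobDist (Om k m) (Fm k m z) (Fm k m w) ≤ kobDist (OmI k) z w := by
  have h := dist_aff (Ω := OmI k) (Ω' := Om k m) (Fm k m) 0 (fun z hz => by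
    change Fm k m z + 0 ∈ Om k m
    rw [add_zero, Fm_mem]
    exact ⟨hz.1, hz.2.1, fun j => hz.2.2 j m⟩) (z := z) (w := w)
  rwa [add_zero, add_zero] at h

lemma low3I {z w : Cn (k + 1)} (i : Fin (k + 1)) :
    ENNReal.ofReal ‖w i - z i‖ ≤ kobDist (OmI k) z w := by
  have h := dist_aff (Ω := OmI k) (Ω' := Om k 0) (ContinuousLinearMap.id ℂ _) 0 (fun z hz => by
    change z + 0 ∈ Om k 0
    rw [add_zero]
    exact OmI_sub hz) (z := z) (w := w)
  simp only [ContinuousLinearMap.id_apply, add_zero] at h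
  exact (dist_low3 i).trans h

theorem complete_OmI : KobComplete (OmI k) := by
  refine ⟨?_, ?_, ?_⟩
  · intro z hz w hw
    exact dist_fin isOpen_OmI isPreconnected_OmI hz hw
  · intro z hz w hw h
    funext i
    have h1 := low3I (z := z) (w := w) i
    rw [h] at h1
    have h2 : ‖w i - z i‖ ≤ 0 := ENNReal.ofReal_eq_zero.1 (le_antisymm h1 bot_le)
    exact (sub_eq_zero.1 (norm_le_zero_iff.1 h2)).symm
  · intro a ha hcau
    have hcs : CauchySeq a := by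
      rw [Metric.cauchySeq_iff]
      intro ε hε
      obtain ⟨N, hN⟩ := hcau (ENNReal.ofReal ε) (ENNReal.ofReal_pos.2 hε)
      refine ⟨N, fun i hi j hj => ?_⟩
      rw [dist_eq_norm, pi_norm_lt_iff hε]
      intro l
      have h1 := (low3I (z := a j) (w := a i) l).trans_lt (hN j hj i hi)
      exact (ENNReal.ofReal_lt_ofReal_iff hε).1 h1
    obtain ⟨b, hb⟩ := cauchySeq_tendsto_of_complete hcs
    have hbO : b ∈ OmI k := by
      have hm : ∀ m : ℕ, Fm k m b ∈ Om k m := by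
        intro m
        obtain ⟨b', hb', hlim⟩ := (complete_Om (k := k) (m := m)).2.2 (fun i => Fm k m (a i))
          (fun i => Fm_mem.2 ⟨(ha i).1, (ha i).2.1, fun j => (ha i).2.2 j m⟩)
          (fun ε hε => by
            obtain ⟨N, hN⟩ := hcau ε hε
            exact ⟨N, fun i hi j hj => (dist_Fm m).trans_lt (hN i hi j hj)⟩)
        have he : b' = Fm k m b := by
          funext l
          have h1 : Tendsto (fun i => ENNReal.ofReal ‖b' l - Fm k m (a i) l‖) atTop (𝓝 0) :=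
            tendsto_of_tendsto_of_tendsto_of_le_of_le tendsto_const_nhds hlim
              (fun _ => bot_le) (fun i => dist_low3 l)
          have h2 : Tendsto (fun i => Fm k m (a i) l) atTop (𝓝 (Fm k m b l)) :=
            (tendsto_pi_nhds.1 (((Fm k m).continuous.tendsto b).comp hb)) l
          have h3 : Tendsto (fun i => ENNReal.ofReal ‖b' l - Fm k m (a i) l‖) atTop
              (𝓝 (ENNReal.ofReal ‖b' l - Fm k m b l‖)) :=
            ENNReal.tendsto_ofReal ((tendsto_const_nhds.sub h2).norm)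
          have h4 := tendsto_nhds_unique h3 h1
          exact sub_eq_zero.1 (norm_le_zero_iff.1 (ENNReal.ofReal_eq_zero.1 h4))
        rw [← he]
        exact hb'
      have h0 := Fm_mem.1 (hm 0)
      exact ⟨h0.1, h0.2.1, fun j m => (Fm_mem.1 (hm m)).2.2 j⟩
    refine ⟨b, hbO, ?_⟩
    obtain ⟨ε, hε, hball⟩ := Metric.isOpen_iff.1 (isOpen_OmI (k := k)) b hbO
    have hn : Tendsto (fun i => ‖a i - b‖) atTop (𝓝 0) := tendsto_iff_norm_sub_tendsto_zero.1 hb
    have hup : ∀ᶠ i in atTop, kobDist (OmI k) (a i) b ≤ ENNReal.ofReal (2 * ‖a i - b‖ / ε) := by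
      filter_upwards [hn.eventually (gt_mem_nhds (half_pos hε))] with i hi
      exact dist_local hε hball hi
    have hlim : Tendsto (fun i => ENNReal.ofReal (2 * ‖a i - b‖ / ε)) atTop (𝓝 0) := by
      have h1 : Tendsto (fun i => 2 * ‖a i - b‖ / ε) atTop (𝓝 (2 * 0 / ε)) :=
        (hn.const_mul 2).div_const ε
      have h2 := ENNReal.tendsto_ofReal h1
      simpa using h2
    exact tendsto_of_tendsto_of_tendsto_of_le_of_le' tendsto_const_nhds hlim
      (Eventually.of_forall fun _ => bot_le) hup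

/-- a part of the ball -/
lemma box_memI {r x X : ℝ} (hr0 : 0 < r) (hr1 : r ≤ 1 / 8) (hx0 : 0 < x) (hx1 : x < 1)
    (hX : X = x ^ (1 / (1 + r / 2))) (h1 : Real.pi ≤ r / 4 * (1 / (1 + r / 2)) * (-Real.log x))
    (h2 : x ≤ X / 2) {z : Cn (k + 1)} (hz0 : X / 2 < ‖z 0‖) (hz1 : ‖z 0‖ < X)
    (hz : ∀ (j : Fin k) (m : ℕ), ‖z j.succ‖ ≤ r / 4 * (2 ^ (m ^ 2) * ‖z 0‖ ^ m)) :
    z ∈ kobBall (OmI k) (ctr k x) (2 * r) := by
  have hb := box_mem (k := 0) (m := 0) hr0 hr1 hx0 hx1 hX h1 h2 (z := fun _ => z 0) hz0 hz1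
    (fun j => j.elim0)
  have hzp : 0 < ‖z 0‖ := hb.1.1
  have hz1' : ‖z 0‖ < 1 := hb.1.2.1
  have hpos : ∀ m : ℕ, 0 < 2 ^ (m ^ 2) * ‖z 0‖ ^ m := fun m => by positivity
  refine ⟨⟨hzp, hz1', fun j m => (hz j m).trans_lt ?_⟩, ?_⟩
  · nlinarith [hpos m]
  -- first step
  let A1 : Cn 1 →L[ℂ] Cn (k + 1) := ContinuousLinearMap.pi fun i =>
    ((Fin.cons 1 (fun _ => 0) : Fin (k + 1) → ℂ) i) • (ContinuousLinearMap.proj 0 : Cn 1 →L[ℂ] ℂ)
  have hA1 : ∀ v : Cn 1, A1 v = cz k (v 0) := by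
    intro v
    funext i
    refine Fin.cases ?_ (fun j => ?_) i
    · simp [A1, cz]
    · simp [A1, cz]
  have s1 : kobDist (OmI k) (ctr k x) (cz k (z 0)) ≤ kobDist (Om 0 0) (ctr 0 x) (fun _ => z 0) := by
    have h := dist_aff (Ω := Om 0 0) (Ω' := OmI k) A1 0 (fun v hv => by
      change A1 v + 0 ∈ OmI k
      rw [add_zero, hA1]
      refine ⟨hv.1, hv.2.1, fun j m => ?_⟩
      change ‖(0 : ℂ)‖ < 2 ^ (m ^ 2) * ‖v 0‖ ^ m
      have := hv.1
      rw [norm_zero]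
      positivity) (z := ctr 0 x) (w := fun _ => z 0)
    rw [add_zero, add_zero, hA1, hA1] at h
    exact h
  -- second step
  set ρ : ℝ := r / 4 with hρ
  have hρ0 : 0 < ρ := by positivity
  have hρ1 : ρ ≤ 1 / 32 := by rw [hρ]; linarith
  let A2 : Cn 1 →L[ℂ] Cn (k + 1) := ContinuousLinearMap.pi fun i =>
    ((Fin.cons 0 (fun j => z j.succ / (ρ : ℂ)) : Fin (k + 1) → ℂ) i) •
      (ContinuousLinearMap.proj 0 : Cn 1 →L[ℂ] ℂ)
  have s2 : kobDist (OmI k) (cz k (z 0)) z ≤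
      kobDist (ball (0 : Cn 1) 1) 0 (fun _ => (ρ : ℂ)) := by
    have h := dist_aff (Ω := ball (0 : Cn 1) 1) (Ω' := OmI k) A2 (cz k (z 0)) (fun v hv => by
      have hv1 : ‖v 0‖ < 1 := lt_of_le_of_lt (norm_le_pi_norm v 0) (by simpa using hv)
      have e0 : (A2 v + cz k (z 0)) 0 = z 0 := by simp [A2, cz]
      have e1 : ∀ j : Fin k, (A2 v + cz k (z 0)) j.succ = z j.succ / (ρ : ℂ) * v 0 := by
        intro j; simp [A2, cz]
      change A2 v + cz k (z 0) ∈ OmI k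
      refine ⟨by rw [e0]; exact hzp, by rw [e0]; exact hz1', fun j m => ?_⟩
      rw [e0, e1, norm_mul, norm_div, Complex.norm_real, Real.norm_eq_abs, abs_of_pos hρ0]
      have h3 : ‖z j.succ‖ / ρ ≤ 2 ^ (m ^ 2) * ‖z 0‖ ^ m := by
        rw [div_le_iff₀ hρ0, mul_comm]; exact hz j m
      calc ‖z j.succ‖ / ρ * ‖v 0‖ ≤ (2 ^ (m ^ 2) * ‖z 0‖ ^ m) * ‖v 0‖ := by gcongr
        _ < (2 ^ (m ^ 2) * ‖z 0‖ ^ m) * 1 := mul_lt_mul_of_pos_left hv1 (hpos m)
        _ = _ := mul_one _) (z := 0) (w := fun _ => (ρ : ℂ))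
    have f0 : A2 0 + cz k (z 0) = cz k (z 0) := by rw [map_zero, zero_add]
    have f1 : A2 (fun _ => (ρ : ℂ)) + cz k (z 0) = z := by
      have hρc : (ρ : ℂ) ≠ 0 := by exact_mod_cast hρ0.ne'
      funext i
      refine Fin.cases ?_ (fun j => ?_) i
      · simp [A2, cz]
      · have : (A2 (fun _ => (ρ : ℂ)) + cz k (z 0)) j.succ = z j.succ / (ρ : ℂ) * ρ := by
          simp [A2, cz]
        rw [this]
        field_simp
    rw [f0, f1] at h
    exact h
  have s3 : kobDist (ball (0 : Cn 1) 1) 0 (fun _ => (ρ : ℂ)) ≤ ENNReal.ofReal r := by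
    have hn : ‖(0 : Cn 1) - (fun _ => (ρ : ℂ))‖ = ρ := by
      rw [zero_sub, norm_neg, pi_norm_const, Complex.norm_real, Real.norm_eq_abs, abs_of_pos hρ0]
    have h := dist_local (Ω := ball (0 : Cn 1) 1) (b := fun _ => (ρ : ℂ)) (q := 0) (ε := 1 - ρ)
      (by linarith) (fun v hv => by
        rw [mem_ball, dist_eq_norm] at hv
        rw [mem_ball_zero_iff]
        have h3 : ‖(fun _ => (ρ : ℂ) : Cn 1)‖ = ρ := by
          rw [pi_norm_const, Complex.norm_real, Real.norm_eq_abs, abs_of_pos hρ0]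
        have h4 := norm_add_le (v - fun _ => (ρ : ℂ)) (fun _ => (ρ : ℂ) : Cn 1)
        rw [sub_add_cancel, h3] at h4
        linarith) (by rw [hn]; linarith)
    refine h.trans (ENNReal.ofReal_le_ofReal ?_)
    rw [hn, div_le_iff₀ (by linarith)]
    nlinarith
  calc kobDist (OmI k) (ctr k x) z
      ≤ kobDist (OmI k) (ctr k x) (cz k (z 0)) + kobDist (OmI k) (cz k (z 0)) z := dist_tri
    _ ≤ kobDist (Om 0 0) (ctr 0 x) (fun _ => z 0) + ENNReal.ofReal r :=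
        add_le_add s1 (s2.trans s3)
    _ < ENNReal.ofReal r + ENNReal.ofReal r :=
        ENNReal.add_lt_add_right ENNReal.ofReal_ne_top hb.2
    _ = ENNReal.ofReal (2 * r) := by
        rw [← ENNReal.ofReal_add hr0.le hr0.le]; congr 1; ring

end Pool.Agent.Y737.KB
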