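import Pool.Agent.Y737.KB.Dom

/-!
# One domain for all exponents: the estimates
-/

set_option autoImplicit false

namespace Pool.Agent.Y737.KB

open MeasureTheory Set Metric Filter
open scoped ENNReal NNReal Topology
open Pool.Agent.Results.MP_8e2100_an.SubMeanFails

variable {k : ℕ}

/-- the condition with index `m` is the strongest one for `|z_0|` near `4^(-m)` -/
lemma key_min {m m' : ℕ} {t : ℝ} (h1 : (1 / 4 : ℝ) ^ m / 2 ≤ t) (h2 : t ≤ (1 / 4 : ℝ) ^ m) :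
    2 ^ (m ^ 2) * t ^ m ≤ 2 ^ (m' ^ 2) * t ^ m' := by
  have ht : 0 < t := lt_of_lt_of_le (by positivity) h1
  rcases le_total m m' with h | h
  · obtain ⟨d, rfl⟩ := Nat.exists_eq_add_of_le h
    have h3 : ((1 / 4 : ℝ) ^ m / 2) ^ d ≤ t ^ d := pow_le_pow_left₀ (by positivity) h1 d
    have h4 : (1 : ℝ) ≤ 2 ^ (2 * m * d + d ^ 2) * ((1 / 4 : ℝ) ^ m / 2) ^ d := by
      have e : (2 : ℝ) ^ (2 * m * d + d ^ 2) * ((1 / 4 : ℝ) ^ m / 2) ^ d = 2 ^ (d ^ 2) * (1 / 2) ^ d := by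
        have e1 : (1 / 4 : ℝ) ^ m = ((2 : ℝ) ^ (2 * m))⁻¹ := by
          rw [pow_mul, ← inv_pow]; norm_num
        rw [e1, div_pow, pow_add, pow_mul, one_div, inv_pow]
        have : (2 : ℝ) ^ (2 * m) ≠ 0 := by positivity
        field_simp
        rw [← mul_pow]
        norm_num
      rw [e]
      have h5 : (2 : ℝ) ^ d ≤ 2 ^ (d ^ 2) := by
        apply pow_le_pow_right₀ (by norm_num)
        rcases Nat.eq_zero_or_pos d with h0 | h0
        · rw [h0]; norm_num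
        · nlinarith
      calc (1 : ℝ) = 2 ^ d * (1 / 2) ^ d := by rw [← mul_pow]; norm_num
        _ ≤ _ := by gcongr
    calc 2 ^ (m ^ 2) * t ^ m = 2 ^ (m ^ 2) * t ^ m * 1 := (mul_one _).symm
      _ ≤ 2 ^ (m ^ 2) * t ^ m * (2 ^ (2 * m * d + d ^ 2) * ((1 / 4 : ℝ) ^ m / 2) ^ d) := by gcongr
      _ ≤ 2 ^ (m ^ 2) * t ^ m * (2 ^ (2 * m * d + d ^ 2) * t ^ d) := by gcongr
      _ = _ := by ring
  · obtain ⟨d, rfl⟩ := Nat.exists_eq_add_of_le h
    have h3 : t ^ d ≤ ((1 / 4 : ℝ) ^ (m' + d)) ^ d := pow_le_pow_left₀ ht.le h2 d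
    have h4 : 2 ^ (2 * m' * d + d ^ 2) * ((1 / 4 : ℝ) ^ (m' + d)) ^ d ≤ 1 := by
      have e : (2 : ℝ) ^ (2 * m' * d + d ^ 2) * ((1 / 4 : ℝ) ^ (m' + d)) ^ d = (1 / 2) ^ (d ^ 2) := by
        have e1 : ((1 / 4 : ℝ) ^ (m' + d)) ^ d = (1 / 2) ^ (2 * m' * d + d ^ 2) * (1 / 2) ^ (d ^ 2) := by
          rw [← pow_mul, ← pow_add, show (1 / 4 : ℝ) = (1 / 2) ^ 2 by norm_num, ← pow_mul]
          congr 1
          ring
        rw [e1, ← mul_assoc, ← mul_pow]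
        norm_num
      rw [e]
      exact pow_le_one₀ (by norm_num) (by norm_num)
    calc 2 ^ ((m' + d) ^ 2) * t ^ (m' + d)
        = 2 ^ (m' ^ 2) * t ^ m' * (2 ^ (2 * m' * d + d ^ 2) * t ^ d) := by ring
      _ ≤ 2 ^ (m' ^ 2) * t ^ m' * (2 ^ (2 * m' * d + d ^ 2) * ((1 / 4 : ℝ) ^ (m' + d)) ^ d) := by
          gcongr
      _ ≤ 2 ^ (m' ^ 2) * t ^ m' * 1 := by gcongr
      _ = _ := mul_one _

/-- lower bound for the volume of the ball -/
lemma vol_ballI {r x X : ℝ} {m : ℕ} (hr0 : 0 < r) (hr1 : r ≤ 1 / 8) (hx0 : 0 < x) (hx1 : x < 1)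
    (hXm : X = (1 / 4) ^ m) (hX : X = x ^ (1 / (1 + r / 2)))
    (h1 : Real.pi ≤ r / 4 * (1 / (1 + r / 2)) * (-Real.log x)) (h2 : x ≤ X / 2) :
    ENNReal.ofReal (Real.pi * (X / (4 * (m + 1))) ^ 2 *
      (Real.pi * (r / 8 * (2 ^ (m ^ 2) * X ^ m)) ^ 2) ^ k) ≤
      volume (kobBall (OmI k) (ctr k x) (2 * r)) := by
  have hX0 : 0 < X := by rw [hX]; exact Real.rpow_pos_of_pos hx0 _
  have hm0 : (0 : ℝ) < m + 1 := by positivity
  have hm1 : (1 : ℝ) ≤ m + 1 := by linarith [(Nat.cast_nonneg m : (0 : ℝ) ≤ m)]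
  set R : ℝ := X / (4 * (m + 1)) with hR
  have hR0 : 0 < R := by positivity
  have hRX : R ≤ X / 4 := by
    rw [hR]
    apply div_le_div_of_nonneg_left hX0.le (by norm_num)
    linarith
  have h := vol_box (k := k) ((X - R : ℝ) : ℂ) R (r / 8 * (2 ^ (m ^ 2) * X ^ m)) hR0.le
    (by positivity)
  rw [← h]
  refine measure_mono ?_
  rintro z ⟨hz0, hz⟩
  rw [mem_ball, dist_eq_norm] at hz0
  have hn : ‖((X - R : ℝ) : ℂ)‖ = X - R := by
    rw [Complex.norm_real, Real.norm_eq_abs, abs_of_pos (by linarith)]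
  have h3 := norm_sub_norm_le ((X - R : ℝ) : ℂ) (z 0)
  have h4 := norm_sub_norm_le (z 0) ((X - R : ℝ) : ℂ)
  rw [norm_sub_rev, hn] at h3
  rw [hn] at h4
  have h5 : X / 2 < ‖z 0‖ := by linarith
  have h6 : ‖z 0‖ < X := by linarith
  have h7 : X - 2 * R ≤ ‖z 0‖ := by linarith
  -- the power
  have h8 : X ^ m / 2 ≤ ‖z 0‖ ^ m := by
    have e1 : X - 2 * R = X * (1 + -(1 / (2 * (m + 1)))) := by
      rw [hR]; field_simp; ring
    have e2 : X ^ m * (1 + -(1 / (2 * ((m : ℝ) + 1)))) ^ m ≤ ‖z 0‖ ^ m := by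
      rw [← mul_pow, ← e1]
      exact pow_le_pow_left₀ (by linarith) h7 m
    refine le_trans ?_ e2
    have e3 : (1 / (2 * ((m : ℝ) + 1))) ≤ 1 / 2 := by
      apply one_div_le_one_div_of_le (by norm_num)
      linarith
    have e4 := one_add_mul_le_pow (a := -(1 / (2 * ((m : ℝ) + 1)))) (by linarith) m
    have e5 : (1 / 2 : ℝ) ≤ 1 + (m : ℝ) * -(1 / (2 * (m + 1))) := by
      have : (m : ℝ) * (1 / (2 * (m + 1))) ≤ 1 / 2 := by
        rw [mul_one_div, div_le_div_iff₀ (by positivity) (by norm_num)]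
        linarith
      linarith
    have hXm0 : 0 < X ^ m := by positivity
    nlinarith
  refine box_memI hr0 hr1 hx0 hx1 hX h1 h2 h5 h6 (fun j m' => ?_)
  have h9 : ‖z j.succ‖ < r / 8 * (2 ^ (m ^ 2) * X ^ m) := by simpa using hz j
  have h10 := key_min (m := m) (m' := m') (t := ‖z 0‖) (by rw [← hXm]; exact h5.le)
    (by rw [← hXm]; exact h6.le)
  calc ‖z j.succ‖ ≤ r / 8 * (2 ^ (m ^ 2) * X ^ m) := h9.le
    _ = r / 4 * (2 ^ (m ^ 2) * (X ^ m / 2)) := by ring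
    _ ≤ r / 4 * (2 ^ (m ^ 2) * ‖z 0‖ ^ m) := by gcongr
    _ ≤ _ := by gcongr

/-- the integral of `|z_0|^{-p}` over a small piece of the domain -/
lemma int_smallI {p δ c : ℝ} {m : ℕ} (hp : 0 < p) (hδ : 0 < δ)
    (hN : δ ≤ ((2 + 2 * m * k : ℕ) : ℝ) - p) (hc : 0 < c) {X : ℝ} (hX : 0 < X) :
    ∫⁻ w in {z : Cn (k + 1) | 0 < ‖z 0‖ ∧ ‖z 0‖ < X ∧ ∀ j : Fin k, ‖z j.succ‖ < c * ‖z 0‖ ^ m},
      ENNReal.ofReal (‖(w 0)⁻¹‖ ^ p) ≤
      ENNReal.ofReal (Real.pi ^ (k + 1) * 2 ^ p * (1 - (1 / 2) ^ δ)⁻¹ * (c ^ 2) ^ k *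
        X ^ (((2 + 2 * m * k : ℕ) : ℝ) - p)) := by
  set N : ℕ := 2 + 2 * m * k with hNdef
  set ρ : ℝ := (1 / 2 : ℝ) ^ δ with hρ
  have hρ0 : 0 < ρ := by positivity
  have hρ1 : ρ < 1 := Real.rpow_lt_one (by norm_num) (by norm_num) hδ
  set e0 : ℝ := Real.pi ^ (k + 1) * 2 ^ p * (c ^ 2) ^ k with he0
  have he0' : 0 < e0 := by positivity
  let S : ℕ → Set (Cn (k + 1)) := fun i =>
    {z : Cn (k + 1) | z 0 ∈ ball (0 : ℂ) (X * (1 / 2) ^ i) ∧
      ∀ j : Fin k, z j.succ ∈ ball (0 : ℂ) (c * (X * (1 / 2) ^ i) ^ m)}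
  let T : ℕ → Set (Cn (k + 1)) := fun i => {z : Cn (k + 1) | X * (1 / 2) ^ (i + 1) ≤ ‖z 0‖}
  have h0 : Continuous (fun z : Cn (k + 1) => ‖z 0‖) := (continuous_apply 0).norm
  have hS : ∀ i, MeasurableSet (S i) := by
    intro i
    have e : S i = {z : Cn (k + 1) | ‖z 0‖ < X * (1 / 2) ^ i} ∩
        ⋂ j : Fin k, {z : Cn (k + 1) | ‖z j.succ‖ < c * (X * (1 / 2) ^ i) ^ m} := by
      ext z
      simp only [S, Set.mem_ofPred_eq, mem_inter_iff, mem_iInter, mem_ball_zero_iff]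
    rw [e]
    refine MeasurableSet.inter (isOpen_lt h0 continuous_const).measurableSet ?_
    exact (isOpen_iInter_of_finite fun j =>
      isOpen_lt (continuous_apply j.succ).norm continuous_const).measurableSet
  have hT : ∀ i, MeasurableSet (T i) := fun i =>
    (isClosed_le continuous_const h0).measurableSet
  have hcov : {z : Cn (k + 1) | 0 < ‖z 0‖ ∧ ‖z 0‖ < X ∧ ∀ j : Fin k, ‖z j.succ‖ < c * ‖z 0‖ ^ m} ⊆
      ⋃ i, S i ∩ T i := by
    rintro z ⟨hpos, hzX, hz⟩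
    have hex : ∃ n : ℕ, X * (1 / 2 : ℝ) ^ (n + 1) ≤ ‖z 0‖ := by
      obtain ⟨n, hn⟩ := exists_pow_lt_of_lt_one (div_pos hpos hX) (by norm_num : (1 / 2 : ℝ) < 1)
      refine ⟨n, ?_⟩
      rw [lt_div_iff₀ hX] at hn
      have : (1 / 2 : ℝ) ^ (n + 1) ≤ (1 / 2) ^ n :=
        pow_le_pow_of_le_one (by norm_num) (by norm_num) (Nat.le_succ n)
      nlinarith
    classical
    have hlt : ‖z 0‖ < X * (1 / 2) ^ (Nat.find hex) := by
      by_cases hf : Nat.find hex = 0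
      · rw [hf]; simpa using hzX
      · have h1 := Nat.find_min hex (Nat.sub_one_lt hf)
        rw [Nat.sub_add_cancel (Nat.one_le_iff_ne_zero.2 hf)] at h1
        exact not_le.1 h1
    refine mem_iUnion.2 ⟨Nat.find hex, ⟨by simpa using hlt, fun j => ?_⟩, Nat.find_spec hex⟩
    rw [mem_ball_zero_iff]
    refine (hz j).trans_le ?_
    gcongr
  have hpiece : ∀ i, ∫⁻ w in S i ∩ T i, ENNReal.ofReal (‖(w 0)⁻¹‖ ^ p) ≤
      ENNReal.ofReal (e0 * X ^ ((N : ℝ) - p) * ρ ^ i) := by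
    intro i
    have hq : 0 < X * (1 / 2 : ℝ) ^ (i + 1) := by positivity
    have h1 : ∫⁻ w in S i ∩ T i, ENNReal.ofReal (‖(w 0)⁻¹‖ ^ p) ≤
        ∫⁻ _ in S i ∩ T i, ENNReal.ofReal ((X * (1 / 2 : ℝ) ^ (i + 1)) ^ (-p)) := by
      refine setLIntegral_mono' ((hS i).inter (hT i)) fun w hw => ?_
      apply ENNReal.ofReal_le_ofReal
      have h2 : X * (1 / 2 : ℝ) ^ (i + 1) ≤ ‖w 0‖ := hw.2
      have h3 : 0 < ‖w 0‖ := hq.trans_le h2
      rw [norm_inv, Real.inv_rpow h3.le, ← Real.rpow_neg h3.le]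
      exact Real.rpow_le_rpow_of_nonpos hq h2 (by linarith)
    refine h1.trans ?_
    rw [lintegral_const, Measure.restrict_apply_univ]
    have h2 : volume (S i ∩ T i) ≤
        ENNReal.ofReal (Real.pi ^ (k + 1) * (c ^ 2) ^ k * (X * (1 / 2) ^ i) ^ N) := by
      refine (measure_mono inter_subset_left).trans (le_of_eq ?_)
      rw [vol_box (k := k) 0 (X * (1 / 2) ^ i) (c * (X * (1 / 2) ^ i) ^ m) (by positivity)
        (by positivity)]
      congr 1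
      generalize X * (1 / 2 : ℝ) ^ i = Y
      have e6 : ((Y ^ m) ^ 2) ^ k = Y ^ (2 * m * k) := by
        rw [← pow_mul, ← pow_mul]
        congr 1
        ring
      rw [hNdef, mul_pow c, mul_pow Real.pi, mul_pow (c ^ 2), pow_add Y 2, e6, pow_succ Real.pi k]
      ring
    refine (mul_le_mul_right h2 _).trans ?_
    rw [← ENNReal.ofReal_mul (by positivity)]
    apply ENNReal.ofReal_le_ofReal
    have e1 : (X * (1 / 2 : ℝ) ^ (i + 1)) ^ (-p) = 2 ^ p * (X * (1 / 2 : ℝ) ^ i) ^ (-p) := by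
      rw [show X * (1 / 2 : ℝ) ^ (i + 1) = (1 / 2) * (X * (1 / 2 : ℝ) ^ i) by ring,
        Real.mul_rpow (by norm_num) (by positivity)]
      congr 1
      rw [Real.rpow_neg (by norm_num), ← Real.inv_rpow (by norm_num)]
      norm_num
    have e2 : (X * (1 / 2 : ℝ) ^ i) ^ (-p) * (X * (1 / 2) ^ i) ^ N =
        X ^ ((N : ℝ) - p) * ((1 / 2 : ℝ) ^ ((N : ℝ) - p)) ^ i := by
      rw [← Real.rpow_natCast (X * (1 / 2) ^ i) N, ← Real.rpow_add (by positivity),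
        Real.mul_rpow hX.le (by positivity), show -p + (N : ℝ) = (N : ℝ) - p by ring]
      congr 1
      rw [← Real.rpow_natCast, ← Real.rpow_natCast, ← Real.rpow_mul (by norm_num),
        ← Real.rpow_mul (by norm_num)]
      congr 1
      ring
    have e3 : ((1 / 2 : ℝ) ^ ((N : ℝ) - p)) ^ i ≤ ρ ^ i := by
      apply pow_le_pow_left₀ (by positivity)
      exact Real.rpow_le_rpow_of_exponent_ge (by norm_num) (by norm_num) hN
    rw [e1]
    calc 2 ^ p * (X * (1 / 2) ^ i) ^ (-p) *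
          (Real.pi ^ (k + 1) * (c ^ 2) ^ k * (X * (1 / 2) ^ i) ^ N)
        = e0 * ((X * (1 / 2 : ℝ) ^ i) ^ (-p) * (X * (1 / 2) ^ i) ^ N) := by
          rw [he0]; ring
      _ = e0 * X ^ ((N : ℝ) - p) * ((1 / 2 : ℝ) ^ ((N : ℝ) - p)) ^ i := by rw [e2]; ring
      _ ≤ _ := by gcongr
  refine (lintegral_mono_set hcov).trans ((lintegral_iUnion_le _ _).trans ?_)
  refine (ENNReal.tsum_le_tsum hpiece).trans ?_
  rw [← ENNReal.ofReal_tsum_of_nonneg (fun i => by positivity)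
    ((summable_geometric_of_lt_one hρ0.le hρ1).mul_left _), tsum_mul_left,
    tsum_geometric_of_lt_one hρ0.le hρ1]
  apply ENNReal.ofReal_le_ofReal
  apply le_of_eq
  rw [he0]
  ring

/-- the integral over the ball -/
lemma int_ballI {p δ : ℝ} {m : ℕ} (hp : 0 < p) (hδ : 0 < δ)
    (hN : δ ≤ ((2 + 2 * m * k : ℕ) : ℝ) - p) {X : ℝ} (hX : 0 < X) (B : Set (Cn (k + 1)))
    (hB : B ⊆ OmI k) :
    ∫⁻ w in B, ENNReal.ofReal (‖(w 0)⁻¹‖ ^ p) ≤
      ENNReal.ofReal (X ^ (-p)) * volume B +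
      ENNReal.ofReal (Real.pi ^ (k + 1) * 2 ^ p * (1 - (1 / 2) ^ δ)⁻¹ * ((2 ^ (m ^ 2)) ^ 2) ^ k *
        X ^ (((2 + 2 * m * k : ℕ) : ℝ) - p)) := by
  have h := int_smallI (k := k) (m := m) (c := 2 ^ (m ^ 2)) hp hδ hN (by positivity) hX
  have h0 : Continuous (fun z : Cn (k + 1) => ‖z 0‖) := (continuous_apply 0).norm
  have hA : MeasurableSet {z : Cn (k + 1) | ‖z 0‖ < X} :=
    (isOpen_lt h0 continuous_const).measurableSet
  rw [← lintegral_inter_add_sdiff _ B hA, add_comm]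
  refine add_le_add ?_ ((lintegral_mono_set ?_).trans h)
  swap
  · rintro z ⟨hz1, hz2⟩
    exact ⟨(hB hz1).1, hz2, fun j => (hB hz1).2.2 j m⟩
  have e : B \ {z : Cn (k + 1) | ‖z 0‖ < X} = {z : Cn (k + 1) | ‖z 0‖ < X}ᶜ ∩ B := by
    rw [inter_comm]; rfl
  rw [e, ← Measure.restrict_restrict hA.compl]
  refine (setLIntegral_mono' (g := fun _ => ENNReal.ofReal (X ^ (-p))) hA.compl
    fun w hw => ?_).trans ?_
  · apply ENNReal.ofReal_le_ofReal
    have h2 : X ≤ ‖w 0‖ := not_lt.1 hw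
    have h3 : 0 < ‖w 0‖ := hX.trans_le h2
    rw [norm_inv, Real.inv_rpow h3.le, ← Real.rpow_neg h3.le]
    exact Real.rpow_le_rpow_of_nonpos hX h2 (by linarith)
  · rw [lintegral_const]
    refine mul_le_mul_right ?_ _
    rw [Measure.restrict_restrict hA.compl, Measure.restrict_apply_univ]
    exact measure_mono inter_subset_right

end Pool.Agent.Y737.KB
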