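import Pool.Agent.Y737.KB.Est

/-!
# One domain for all exponents: the sub-mean value inequality fails
-/

set_option autoImplicit false
set_option maxHeartbeats 4000000

namespace Pool.Agent.Y737.KB

open MeasureTheory Set Metric Filter
open scoped ENNReal NNReal Topology
open Pool.Agent.Results.MP_8e2100_an.SubMeanFails

theorem gap (k : ℕ) {p : ℝ} (h : 1 ≤ k ∨ p < 2) : ∃ δ : ℝ, 0 < δ ∧ ∃ M : ℕ, ∀ m : ℕ, M ≤ m →
    δ ≤ ((2 + 2 * m * k : ℕ) : ℝ) - p := by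
  by_cases hp : p < 2
  · refine ⟨2 - p, by linarith, 0, fun m _ => ?_⟩
    push_cast
    have : (0 : ℝ) ≤ 2 * m * k := by positivity
    linarith
  · have hk : 1 ≤ k := by
      rcases h with h | h
      · exact h
      · exact absurd h hp
    obtain ⟨M, hM⟩ := exists_nat_gt p
    refine ⟨1, one_pos, M, fun m hm => ?_⟩
    push_cast
    have h1 : (M : ℝ) ≤ m := by exact_mod_cast hm
    have h2 : (1 : ℝ) ≤ k := by exact_mod_cast hk
    have h3 : (0 : ℝ) ≤ m := Nat.cast_nonneg m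
    nlinarith

/-- **The sub-mean value inequality fails on `OmI k` for all exponents and all radii, for the
function `1 / z_0`.** -/
theorem main (k : ℕ) {r : ℝ} (hr : 0 < r) : ∃ s : ℝ, 0 < s ∧ s < 1 ∧ ∀ p : ℝ, 0 < p →
    (1 ≤ k ∨ p < 2) → ∀ C : ℝ, 0 < C → ∃ z ∈ OmI k,
      ENNReal.ofReal C / volume (kobBall (OmI k) z r) *
        ∫⁻ w in kobBall (OmI k) z r, ENNReal.ofReal (‖(w 0)⁻¹‖ ^ p) <
      ENNReal.ofReal (‖(z 0)⁻¹‖ ^ (s * p)) := by
  obtain ⟨r1, hr1⟩ : ∃ r1, r1 = min r (1 / 4) / 2 := ⟨_, rfl⟩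
  have hr10 : 0 < r1 := by rw [hr1]; positivity
  have hr18 : r1 ≤ 1 / 8 := by
    rw [hr1]
    have := min_le_right r (1 / 4)
    linarith
  have hr1r : 2 * r1 ≤ r := by
    rw [hr1]
    have := min_le_left r (1 / 4)
    linarith
  refine ⟨(1 + r1 / 4) / (1 + r1 / 2), by positivity, by
    rw [div_lt_one (by positivity)]; linarith, fun p hp hk C hC => ?_⟩
  obtain ⟨δ, hδ, M0, hM0⟩ := gap k hk
  obtain ⟨c1, hc1⟩ : ∃ c1, c1 = Real.pi / 16 * (Real.pi * (r1 / 8) ^ 2) ^ k := ⟨_, rfl⟩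
  have hc10 : 0 < c1 := by rw [hc1]; positivity
  obtain ⟨c2, hc2⟩ : ∃ c2, c2 = Real.pi ^ (k + 1) * 2 ^ p * (1 - (1 / 2 : ℝ) ^ δ)⁻¹ := ⟨_, rfl⟩
  have hc20 : 0 ≤ c2 := by
    rw [hc2]
    have : (1 / 2 : ℝ) ^ δ < 1 := Real.rpow_lt_one (by norm_num) (by norm_num) hδ
    exact mul_nonneg (by positivity) (inv_nonneg.2 (by linarith))
  obtain ⟨K, hK⟩ : ∃ K, K = C * (1 + c2 / c1) := ⟨_, rfl⟩
  have hK0 : 0 < K := by rw [hK]; positivity
  obtain ⟨b, hb⟩ : ∃ b : ℝ, b = 4 ^ (r1 / 4 * p) := ⟨_, rfl⟩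
  have hb1 : 1 < b := by
    rw [hb]; exact Real.one_lt_rpow (by norm_num) (by positivity)
  have E1 : ∀ᶠ m : ℕ in atTop, M0 ≤ m := eventually_ge_atTop M0
  have E1' : ∀ᶠ m : ℕ in atTop, 1 ≤ m := eventually_ge_atTop 1
  have E2 : ∀ᶠ m : ℕ in atTop, Real.pi / (r1 / 4 * Real.log 4) ≤ m :=
    tendsto_natCast_atTop_atTop.eventually_ge_atTop _
  have E3 : ∀ᶠ m : ℕ in atTop, ((1 / 4 : ℝ) ^ (r1 / 2)) ^ m < 1 / 2 :=
    (tendsto_pow_atTop_nhds_zero_of_lt_one (by positivity)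
      (Real.rpow_lt_one (by norm_num) (by norm_num) (by positivity))).eventually
        (gt_mem_nhds (by norm_num))
  have E4 : ∀ᶠ m : ℕ in atTop, (m : ℝ) ^ 2 / b ^ m < 1 / (4 * K) :=
    (tendsto_pow_const_div_const_pow_of_one_lt 2 hb1).eventually (gt_mem_nhds (by positivity))
  obtain ⟨m, hm0, hm1, hm2, hm3, hm4⟩ := (E1.and (E1'.and (E2.and (E3.and E4)))).exists
  have hmR : (1 : ℝ) ≤ m := by exact_mod_cast hm1
  have hbm : K * ((m : ℝ) + 1) ^ 2 < b ^ m := by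
    have hbm0 : 0 < b ^ m := by positivity
    rw [div_lt_div_iff₀ hbm0 (by positivity)] at hm4
    have h1 : ((m : ℝ) + 1) ^ 2 ≤ 4 * (m : ℝ) ^ 2 := by nlinarith
    calc K * ((m : ℝ) + 1) ^ 2 ≤ K * (4 * (m : ℝ) ^ 2) := by gcongr
      _ = (m : ℝ) ^ 2 * (4 * K) := by ring
      _ < 1 * b ^ m := hm4
      _ = b ^ m := one_mul _
  obtain ⟨X, hX⟩ : ∃ X : ℝ, X = (1 / 4) ^ m := ⟨_, rfl⟩
  have hX0 : 0 < X := by rw [hX]; positivity
  have hX1 : X < 1 := by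
    rw [hX]; exact pow_lt_one₀ (by norm_num) (by norm_num) (by omega)
  obtain ⟨x, hx⟩ : ∃ x : ℝ, x = X ^ (1 + r1 / 2) := ⟨_, rfl⟩
  have hx0 : 0 < x := by rw [hx]; exact Real.rpow_pos_of_pos hX0 _
  have hx1 : x < 1 := by rw [hx]; exact Real.rpow_lt_one hX0.le hX1 (by positivity)
  have hXx : X = x ^ (1 / (1 + r1 / 2)) := by
    rw [hx, ← Real.rpow_mul hX0.le, mul_one_div, div_self (by positivity), Real.rpow_one]
  have hlogX : Real.log X = -(m * Real.log 4) := by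
    rw [hX, Real.log_pow, one_div, Real.log_inv]
    ring
  have hlog4 : 0 < Real.log 4 := Real.log_pos (by norm_num)
  have hA : Real.pi ≤ r1 / 4 * (1 / (1 + r1 / 2)) * (-Real.log x) := by
    rw [div_le_iff₀ (by positivity)] at hm2
    have h1 : -Real.log x = (1 + r1 / 2) * (m * Real.log 4) := by
      rw [hx, Real.log_rpow hX0, hlogX]; ring
    rw [h1]
    have h2 : r1 / 4 * (1 / (1 + r1 / 2)) * ((1 + r1 / 2) * (m * Real.log 4)) =
        m * (r1 / 4 * Real.log 4) := by field_simp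
    rw [h2]
    exact hm2
  have hB : x ≤ X / 2 := by
    have h1 : x = X * ((1 / 4 : ℝ) ^ (r1 / 2)) ^ m := by
      rw [hx, Real.rpow_add hX0, Real.rpow_one]
      congr 1
      rw [hX, ← Real.rpow_natCast, ← Real.rpow_natCast, ← Real.rpow_mul (by norm_num),
        ← Real.rpow_mul (by norm_num), mul_comm]
    rw [h1]
    nlinarith
  have hVI := vol_ballI (k := k) hr10 hr18 hx0 hx1 hX hXx hA hB
  refine ⟨ctr k x, ctr_memI hx0 hx1, ?_⟩
  by_contra hcon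
  rw [not_lt] at hcon
  obtain ⟨B, hBdef⟩ : ∃ B, B = kobBall (OmI k) (ctr k x) r := ⟨_, rfl⟩
  rw [← hBdef] at hcon
  have hBO : B ⊆ OmI k := fun w hw => by rw [hBdef] at hw; exact hw.1
  have hVfin : volume B ≠ ⊤ := ((measure_mono hBO).trans_lt isBounded_OmI.measure_lt_top).ne
  obtain ⟨v, hv⟩ : ∃ v, v = (volume B).toReal := ⟨_, rfl⟩
  have hVv : volume B = ENNReal.ofReal v := by rw [hv]; exact (ENNReal.ofReal_toReal hVfin).symm
  obtain ⟨N, hN⟩ : ∃ N : ℕ, N = 2 + 2 * m * k := ⟨_, rfl⟩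
  obtain ⟨D, hD⟩ : ∃ D : ℝ, D = ((2 ^ (m ^ 2)) ^ 2) ^ k := ⟨_, rfl⟩
  have hD0 : 0 < D := by rw [hD]; positivity
  have hm10 : (0 : ℝ) < (m + 1) ^ 2 := by positivity
  have hv0 : c1 / (m + 1) ^ 2 * D * X ^ N ≤ v := by
    have h1 : Real.pi * (X / (4 * (m + 1))) ^ 2 *
        (Real.pi * (r1 / 8 * (2 ^ (m ^ 2) * X ^ m)) ^ 2) ^ k = c1 / (m + 1) ^ 2 * D * X ^ N := by
      have e6 : ((X ^ m) ^ 2) ^ k = X ^ (2 * m * k) := by
        rw [← pow_mul, ← pow_mul]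
        congr 1
        ring
      have e7 : (Real.pi * (r1 / 8 * (2 ^ (m ^ 2) * X ^ m)) ^ 2) ^ k =
          (Real.pi * (r1 / 8) ^ 2) ^ k * (D * X ^ (2 * m * k)) := by
        rw [mul_pow (r1 / 8), mul_pow (2 ^ (m ^ 2)), ← mul_assoc,
          mul_pow (Real.pi * (r1 / 8) ^ 2) _ k, mul_pow ((2 ^ (m ^ 2)) ^ 2) _ k, e6, hD]
      rw [e7, hN, pow_add X 2, hc1]
      field_simp
      ring
    rw [h1] at hVI
    have h2 : volume (kobBall (OmI k) (ctr k x) (2 * r1)) ≤ volume B := by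
      refine measure_mono fun w hw => ?_
      rw [hBdef]
      exact ⟨hw.1, hw.2.trans_le (ENNReal.ofReal_le_ofReal hr1r)⟩
    have h3 := hVI.trans h2
    rw [hVv] at h3
    have hpos : 0 < c1 / (m + 1) ^ 2 * D * X ^ N := by positivity
    by_contra h4
    rw [not_le] at h4
    have h5 : ENNReal.ofReal v < ENNReal.ofReal (c1 / (m + 1) ^ 2 * D * X ^ N) :=
      (ENNReal.ofReal_lt_ofReal_iff hpos).2 h4
    exact absurd h3 (not_le.2 h5)
  have hvpos : 0 < v := lt_of_lt_of_le (by positivity) hv0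
  have hint := int_ballI (k := k) (m := m) hp hδ (hM0 m hm0) hX0 B hBO
  rw [← hc2, ← hD, ← hN, hVv, ← ENNReal.ofReal_mul (by positivity),
    ← ENNReal.ofReal_add (by positivity) (by positivity)] at hint
  have key2 := hcon.trans (mul_le_mul_right hint _)
  rw [hVv, ← ENNReal.ofReal_div_of_pos hvpos, ← ENNReal.ofReal_mul (by positivity),
    ENNReal.ofReal_le_ofReal_iff (by positivity)] at key2
  have e1 : ‖(ctr k x 0)⁻¹‖ ^ ((1 + r1 / 4) / (1 + r1 / 2) * p) = b ^ m * X ^ (-p) := by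
    have h1 : ‖ctr k x 0‖ = x := by simp [ctr, abs_of_pos hx0]
    rw [norm_inv, h1, Real.inv_rpow hx0.le, ← Real.rpow_neg hx0.le, hx, ← Real.rpow_mul hX0.le]
    have h2 : (1 + r1 / 2) * -((1 + r1 / 4) / (1 + r1 / 2) * p) = -(r1 / 4 * p) + -p := by
      field_simp
      ring
    rw [h2, Real.rpow_add hX0]
    congr 1
    rw [hX, hb, ← Real.rpow_natCast, ← Real.rpow_natCast, ← Real.rpow_mul (by norm_num),
      ← Real.rpow_mul (by norm_num), show (1 / 4 : ℝ) = 4⁻¹ by norm_num, Real.inv_rpow (by norm_num),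
      ← Real.rpow_neg (by norm_num)]
    congr 1
    ring
  rw [e1] at key2
  have hXp : 0 < X ^ (-p) := Real.rpow_pos_of_pos hX0 _
  have e2 : X ^ ((N : ℝ) - p) = X ^ (-p) * X ^ N := by
    rw [show (N : ℝ) - p = -p + (N : ℝ) by ring, Real.rpow_add hX0, Real.rpow_natCast]
  have e3 : D * X ^ N ≤ (m + 1) ^ 2 / c1 * v := by
    have h1 : (m + 1) ^ 2 / c1 * (c1 / (m + 1) ^ 2 * D * X ^ N) ≤ (m + 1) ^ 2 / c1 * v :=
      mul_le_mul_of_nonneg_left hv0 (by positivity)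
    have h2 : ((m : ℝ) + 1) ^ 2 / c1 * (c1 / (m + 1) ^ 2 * D * X ^ N) = D * X ^ N := by
      field_simp
    rwa [h2] at h1
  have key3 : b ^ m * X ^ (-p) ≤ K * ((m : ℝ) + 1) ^ 2 * X ^ (-p) := by
    refine key2.trans ?_
    have h1 : c2 * D * X ^ ((N : ℝ) - p) ≤ c2 * (X ^ (-p) * ((m + 1) ^ 2 / c1 * v)) := by
      rw [e2]
      calc c2 * D * (X ^ (-p) * X ^ N) = c2 * (X ^ (-p) * (D * X ^ N)) := by ring
        _ ≤ _ := by gcongr
    have hm11 : (1 : ℝ) ≤ (m + 1) ^ 2 := one_le_pow₀ (by linarith)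
    calc C / v * (X ^ (-p) * v + c2 * D * X ^ ((N : ℝ) - p))
        ≤ C / v * (X ^ (-p) * v + c2 * (X ^ (-p) * ((m + 1) ^ 2 / c1 * v))) := by gcongr
      _ = C * (1 + c2 / c1 * (m + 1) ^ 2) * X ^ (-p) := by field_simp
      _ ≤ C * ((m + 1) ^ 2 + c2 / c1 * (m + 1) ^ 2) * X ^ (-p) := by gcongr
      _ = K * ((m : ℝ) + 1) ^ 2 * X ^ (-p) := by rw [hK]; ring
  have h6 := le_of_mul_le_mul_right key3 hXp
  linarith

end Pool.Agent.Y737.KB
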